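import Mathlib

namespace Pool.Agent.V11233.PT

open Module Submodule Set Pointwise

variable {m : ℕ}

/-- value of the integer form with coefficients `a` -/
def form (a : Fin m → ℤ) (x : Fin m → ℕ) : ℤ := ∑ j, a j * (x j : ℤ)

theorem form_add (a : Fin m → ℤ) (x y : Fin m → ℕ) : form a (x + y) = form a x + form a y := by
  unfold form
  rw [← Finset.sum_add_distrib]
  apply Finset.sum_congr rfl
  intro j _
  simp only [Pi.add_apply, Nat.cast_add]
  ring

/-- `x` and `y` are not distinguished by the forms in `F` up to the threshold `K` and modulo `p` -/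
def Eqv (F : Finset (Fin m → ℤ)) (p : ℕ) (K : ℤ) (x y : Fin m → ℕ) : Prop :=
  (∀ j, ((x j : ℤ) - (y j : ℤ)) % p = 0) ∧
  ∀ a ∈ F, form a x = form a y ∨ (K < form a x ∧ K < form a y) ∨ (form a x < -K ∧ form a y < -K)

/-- The set `C` is determined by finitely many forms with a threshold and a modulus. -/
def Loc (C : Set (Fin m → ℕ)) : Prop :=
  ∃ (F : Finset (Fin m → ℤ)) (p : ℕ) (K : ℤ), 1 ≤ p ∧ 0 ≤ K ∧ ∀ x y, Eqv F p K x y → x ∈ C → y ∈ C

theorem Eqv.symm {F : Finset (Fin m → ℤ)} {p : ℕ} {K : ℤ} {x y : Fin m → ℕ} (h : Eqv F p K x y) :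
    Eqv F p K y x := by
  refine ⟨fun j => ?_, fun a ha => ?_⟩
  · have := h.1 j
    have h2 : ((y j : ℤ) - (x j : ℤ)) = -((x j : ℤ) - (y j : ℤ)) := by ring
    rw [h2]
    exact Int.emod_eq_zero_of_dvd (dvd_neg.2 (Int.dvd_of_emod_eq_zero this))
  · rcases h.2 a ha with h | ⟨h, h'⟩ | ⟨h, h'⟩
    · exact Or.inl h.symm
    · exact Or.inr (Or.inl ⟨h', h⟩)
    · exact Or.inr (Or.inr ⟨h', h⟩)

theorem Eqv.mono {F F' : Finset (Fin m → ℤ)} {p p' : ℕ} {K K' : ℤ} {x y : Fin m → ℕ}
    (h : Eqv F p K x y) (hF : F' ⊆ F) (hp : p' ∣ p) (hK : K' ≤ K) : Eqv F' p' K' x y := by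
  refine ⟨fun j => ?_, fun a ha => ?_⟩
  · have := h.1 j
    exact Int.emod_eq_zero_of_dvd ((Int.natCast_dvd_natCast.2 hp).trans (Int.dvd_of_emod_eq_zero this))
  · rcases h.2 a (hF ha) with h | ⟨h, h'⟩ | ⟨h, h'⟩
    · exact Or.inl h
    · exact Or.inr (Or.inl ⟨by omega, by omega⟩)
    · exact Or.inr (Or.inr ⟨by omega, by omega⟩)

theorem Loc.union {C C' : Set (Fin m → ℕ)} (h : Loc C) (h' : Loc C') : Loc (C ∪ C') := by
  classical
  obtain ⟨F, p, K, hp, hK, h⟩ := h
  obtain ⟨F', p', K', hp', hK', h'⟩ := h'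
  refine ⟨F ∪ F', p * p', max K K', Nat.one_le_iff_ne_zero.2 (by positivity), le_max_of_le_left hK, ?_⟩
  intro x y hxy hx
  rcases hx with hx | hx
  · exact Or.inl (h x y (hxy.mono Finset.subset_union_left (dvd_mul_right _ _) (le_max_left _ _)) hx)
  · exact Or.inr (h' x y (hxy.mono Finset.subset_union_right (dvd_mul_left _ _) (le_max_right _ _)) hx)

theorem Loc.empty : Loc (∅ : Set (Fin m → ℕ)) :=
  ⟨∅, 1, 0, le_rfl, le_rfl, fun _ _ _ h => h⟩

def toRat : (Fin m → ℕ) →+ (Fin m → ℚ) :=
  (Nat.castAddMonoidHom ℚ).compLeft (Fin m)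

theorem toRat_inj (x y : Fin m → ℕ) : toRat x = toRat y ↔ x = y := by
  refine ⟨fun h => ?_, congr_arg toRat⟩
  ext i
  simpa [toRat] using congr_fun h i

theorem linearIndepOn_toRat {s : Set (Fin m → ℕ)} (hs : LinearIndepOn ℕ id s) :
    LinearIndepOn ℚ toRat s := by
  rw [LinearIndepOn, ← LinearIndependent.iff_fractionRing ℤ ℚ, ← LinearIndepOn, linearIndepOn_iff'']
  intro t f ht hf heq i hi
  rw [linearIndepOn_iff_linearIndepOn_finset] at hs
  specialize hs t ht
  rw [linearIndepOn_finset_iffₛ] at hs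
  specialize hs (Int.toNat ∘ f) (Int.toNat ∘ (-·) ∘ f) ?_ i hi
  · simp_rw [← toRat_inj, map_sum]
    rw [← sub_eq_zero, ← Finset.sum_sub_distrib, ← heq]
    refine Finset.sum_congr rfl fun j hj => ?_
    conv_rhs => rw [← (f j).toNat_sub_toNat_neg]
    simp only [sub_smul, map_nsmul, natCast_zsmul, Function.comp_apply, id_eq]
  · rw [← (f i).toNat_sub_toNat_neg, sub_eq_zero, Int.natCast_inj]
    simpa using hs

/-- a common denominator -/
theorem common_den {ι : Type} [Finite ι] (q : ι → ℚ) : ∃ D : ℕ, 1 ≤ D ∧ ∀ i, ∃ z : ℤ, (D : ℚ) * q i = z := by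
  classical
  have := Fintype.ofFinite ι
  refine ⟨∏ i, (q i).den, Nat.one_le_iff_ne_zero.2 (Finset.prod_ne_zero_iff.2 (fun i _ => (q i).den_nz)), ?_⟩
  intro i
  obtain ⟨c, hc⟩ : (q i).den ∣ ∏ i, (q i).den := Finset.dvd_prod_of_mem _ (Finset.mem_univ i)
  refine ⟨c * (q i).num, ?_⟩
  rw [hc]
  push_cast
  have h := Rat.mul_den_eq_num (q i)
  have : ((q i).den : ℚ) * c * q i = c * (q i * (q i).den) := by ring
  rw [this, h]

theorem loc_proper {C : Set (Fin m → ℕ)} (h : IsProperLinearSet C) : Loc C := by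
  classical
  obtain ⟨b, P, hP, hind, rfl⟩ := h
  have hindQ := linearIndepOn_toRat hind
  obtain ⟨Bs, hBs⟩ : ∃ Bs, Bs = hindQ.extend (@subset_union_left _ P (range (Pi.basisFun ℕ (Fin m)))) :=
    ⟨_, rfl⟩
  have hPB : P ⊆ Bs := by rw [hBs]; exact hindQ.subset_extend _
  have hBU : Bs ⊆ P ∪ range (Pi.basisFun ℕ (Fin m)) := by rw [hBs]; exact hindQ.extend_subset _
  have hBfin : Bs.Finite := (hP.union (finite_range _)).subset hBU
  have hBind : LinearIndepOn ℚ toRat Bs := by rw [hBs]; exact hindQ.linearIndepOn_extend _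
  have hspan : span ℚ (toRat '' Bs) = ⊤ := by
    rw [hBs, hindQ.span_image_extend_eq_span_image, ← top_le_iff]
    apply (span_mono (image_mono subset_union_right)).trans'
    rw [top_le_iff]
    convert! (Pi.basisFun ℚ (Fin m)).span_eq
    ext
    simp only [mem_image, mem_range, exists_exists_eq_and]
    congr!
    ext
    simp [toRat, Pi.basisFun_apply, Pi.single_apply]
  let B : Basis Bs ℚ (Fin m → ℚ) := Basis.mk hBind (image_eq_range _ _ ▸ top_le_iff.2 hspan)
  have hB : ∀ i, B i = toRat i.1 := fun i => Basis.mk_apply hBind _ i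
  have : Fintype Bs := hBfin.fintype
  -- integer forms
  obtain ⟨D, hD1, hD⟩ := common_den (fun z : Bs × Fin m => B.repr (Pi.single z.2 1) z.1)
  choose c hc using hD
  have hform : ∀ (x : Fin m → ℕ) (i : Bs), ((form (fun j => c (i, j)) x : ℤ) : ℚ) = D * B.repr (toRat x) i := by
    intro x i
    have hx : toRat x = ∑ j, (x j : ℚ) • (Pi.single j 1 : Fin m → ℚ) := by
      ext k
      simp [toRat, Finset.sum_apply, Pi.single_apply]
    rw [hx]
    simp only [map_sum, map_smul, Finsupp.coe_finsetSum, Finset.sum_apply, Finsupp.smul_apply,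
      smul_eq_mul]
    unfold form
    push_cast
    rw [Finset.mul_sum]
    apply Finset.sum_congr rfl
    intro j _
    rw [← hc (i, j)]
    ring
  -- characterization of the membership
  have hmem : ∀ x : Fin m → ℕ, x ∈ b +ᵥ (AddSubmonoid.closure P : Set (Fin m → ℕ)) ↔
      ∀ i : Bs, ∃ n : ℕ, B.repr (toRat x) i - B.repr (toRat b) i = n ∧ (i.1 ∉ P → n = 0) := by
    intro x
    constructor
    · rintro ⟨y, hy, rfl⟩ i
      have key : ∀ y ∈ AddSubmonoid.closure P, ∃ n : ℕ, B.repr (toRat y) i = n ∧ (i.1 ∉ P → n = 0) := by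
        intro y hy
        induction hy using AddSubmonoid.closure_induction with
        | mem z hz =>
          have : toRat z = B ⟨z, hPB hz⟩ := (hB ⟨z, hPB hz⟩).symm
          rw [this, B.repr_self]
          by_cases hi : (⟨z, hPB hz⟩ : Bs) = i
          · refine ⟨1, by simp [hi], ?_⟩
            intro hni
            rw [← hi] at hni
            exact absurd hz hni
          · refine ⟨0, ?_, fun _ => rfl⟩
            simp [Finsupp.single_apply, hi]
        | zero => exact ⟨0, by simp, fun _ => rfl⟩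
        | add y z _ _ h1 h2 =>
          obtain ⟨n1, h1, h1'⟩ := h1
          obtain ⟨n2, h2, h2'⟩ := h2
          refine ⟨n1 + n2, ?_, fun h => by rw [h1' h, h2' h]⟩
          simp [h1, h2]
      obtain ⟨n, hn, hn'⟩ := key y hy
      refine ⟨n, ?_, hn'⟩
      show B.repr (toRat (b + y)) i - _ = _
      rw [map_add, map_add, Finsupp.add_apply, hn]
      ring
    · intro h
      choose n hn hn' using h
      have hx : toRat x = toRat (b + ∑ i : Bs, n i • i.1) := by
        apply B.repr.injective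
        ext i
        have e := hn i
        have e1 : B.repr (toRat (b + ∑ i : Bs, n i • i.1)) i = B.repr (toRat b) i + n i := by
          rw [map_add, map_sum]
          simp only [map_nsmul, map_add, map_sum, Finsupp.add_apply, Finsupp.coe_finsetSum,
            Finset.sum_apply]
          congr 1
          rw [Finset.sum_eq_single i]
          · rw [← hB i]; simp
          · intro j _ hj
            rw [← hB j]
            simp [Finsupp.single_apply, hj]
          · simp
        rw [e1, ← e]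
        ring
      rw [toRat_inj] at hx
      rw [hx]
      refine ⟨_, ?_, rfl⟩
      apply AddSubmonoid.sum_mem
      intro i _
      by_cases hi : i.1 ∈ P
      · exact AddSubmonoid.nsmul_mem _ (AddSubmonoid.subset_closure hi) _
      · rw [hn' i hi, zero_smul]
        exact AddSubmonoid.zero_mem _
  refine ⟨Finset.univ.image (fun i : Bs => fun j => c (i, j)), D,
    ∑ i : Bs, |form (fun j => c (i, j)) b|, hD1, Finset.sum_nonneg (fun _ _ => abs_nonneg _), ?_⟩
  intro x y hxy hx
  rw [hmem] at hx ⊢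
  intro i
  obtain ⟨n, hn, hn'⟩ := hx i
  have hbK : |form (fun j => c (i, j)) b| ≤ ∑ i : Bs, |form (fun j => c (i, j)) b| :=
    Finset.single_le_sum (f := fun i : Bs => |form (fun j => c (i, j)) b|)
      (fun _ _ => abs_nonneg _) (Finset.mem_univ i)
  obtain ⟨K, hK⟩ : ∃ K, K = ∑ i : Bs, |form (fun j => c (i, j)) b| := ⟨_, rfl⟩
  rw [← hK] at hbK hxy
  have hDpos : (0 : ℚ) < D := by exact_mod_cast hD1
  have hDne : (D : ℚ) ≠ 0 := hDpos.ne'
  have ex : form (fun j => c (i, j)) x - form (fun j => c (i, j)) b = D * n := by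
    have : ((form (fun j => c (i, j)) x - form (fun j => c (i, j)) b : ℤ) : ℚ) = ((D * n : ℤ) : ℚ) := by
      push_cast
      rw [hform, hform, ← mul_sub, hn]
    exact_mod_cast this
  -- divisibility for y
  have hdiv : (D : ℤ) ∣ form (fun j => c (i, j)) y - form (fun j => c (i, j)) b := by
    have h1 : (D : ℤ) ∣ form (fun j => c (i, j)) x - form (fun j => c (i, j)) y := by
      unfold form
      rw [← Finset.sum_sub_distrib]
      apply Finset.dvd_sum
      intro j _
      rw [← mul_sub]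
      exact Dvd.dvd.mul_left (Int.dvd_of_emod_eq_zero (hxy.1 j)) _
    have h2 : (D : ℤ) ∣ form (fun j => c (i, j)) x - form (fun j => c (i, j)) b := ⟨n, ex⟩
    have := dvd_sub h2 h1
    have e : form (fun j => c (i, j)) x - form (fun j => c (i, j)) b -
      (form (fun j => c (i, j)) x - form (fun j => c (i, j)) y) =
      form (fun j => c (i, j)) y - form (fun j => c (i, j)) b := by ring
    rwa [e] at this
  have hnn : 0 ≤ form (fun j => c (i, j)) y - form (fun j => c (i, j)) b := by
    have hb := abs_le.1 hbK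
    have hn0 : (0 : ℤ) ≤ D * n := by positivity
    rcases hxy.2 _ (Finset.mem_image_of_mem _ (Finset.mem_univ i)) with h | ⟨_, h⟩ | ⟨h, _⟩
    · rw [← h, ex]; exact hn0
    · omega
    · omega
  obtain ⟨z, hz⟩ := hdiv
  have hz0 : 0 ≤ z := by
    rw [hz] at hnn
    have : (0 : ℤ) < D := by exact_mod_cast hD1
    exact nonneg_of_mul_nonneg_right hnn this
  obtain ⟨n', rfl⟩ := Int.eq_ofNat_of_zero_le hz0
  refine ⟨n', ?_, ?_⟩
  · have h1 : ((form (fun j => c (i, j)) y - form (fun j => c (i, j)) b : ℤ) : ℚ) = ((D * n' : ℤ) : ℚ) := by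
      rw [hz]
    push_cast at h1
    rw [hform, hform, ← mul_sub] at h1
    exact mul_left_cancel₀ hDne h1
  · intro hi
    have hn0 : n = 0 := hn' hi
    subst hn0
    have hxb : form (fun j => c (i, j)) x = form (fun j => c (i, j)) b := by
      have : (D : ℤ) * ((0 : ℕ) : ℤ) = 0 := by simp
      rw [this] at ex
      omega
    have hb := abs_le.1 hbK
    have hyx : form (fun j => c (i, j)) y = form (fun j => c (i, j)) x := by
      rcases hxy.2 _ (Finset.mem_image_of_mem _ (Finset.mem_univ i)) with h | ⟨h, _⟩ | ⟨h, _⟩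
      · exact h.symm
      · omega
      · omega
    rw [hyx, hxb, sub_self] at hz
    have hDz : (D : ℤ) ≠ 0 := by exact_mod_cast (by omega : D ≠ 0)
    have := (mul_eq_zero.1 hz.symm).resolve_left hDz
    exact_mod_cast this

theorem loc_semilinear {C : Set (Fin m → ℕ)} (h : IsSemilinearSet C) : Loc C := by
  obtain ⟨S, hS, hS', rfl⟩ := h.isProperSemilinearSet
  have key : ∀ S : Set (Set (Fin m → ℕ)), S.Finite → (∀ t ∈ S, IsProperLinearSet t) → Loc (⋃₀ S) := by
    intro S hS
    induction S, hS using Set.Finite.induction_on with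
    | empty => intro _; simpa using Loc.empty
    | insert _ _ ih =>
      intro hS'
      rw [sUnion_insert]
      exact (loc_proper (hS' _ (mem_insert _ _))).union (ih (fun t ht => hS' t (mem_insert_of_mem _ ht)))
  exact key S hS hS'

end Pool.Agent.V11233.PT
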