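import Mathlib
import Pool.Agent.V11233.PT.Loc

set_option autoImplicit false

namespace Pool.Agent.V11233.PT

/-- Trees over a ranked alphabet. -/
inductive Tree (α : Type) (rk : α → ℕ) : Type
  | node (a : α) (ch : Fin (rk a) → Tree α rk) : Tree α rk

/-- A Parikh tree automaton with reset with `m` counters; `none` is the reset. A transition
`q → a (q₁ (e₁), …, q_k (e_k))` is the element `(q, ⟨a, fun i => (q_i, e_i)⟩)` of `Δ`. -/
structure PTAR (α : Type) (rk : α → ℕ) (m : ℕ) where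
  Q : Type
  finQ : Finite Q
  init : Q
  C : Set (Fin m → ℕ)
  semilinear : IsSemilinearSet C
  Δ : Set (Q × (Σ a : α, (Fin (rk a) → Q × Option (Fin m → ℕ))))
  finΔ : Δ.Finite

/-- the effect of an instruction on the counters -/
def upd {m : ℕ} (s : Fin m → ℕ) : Option (Fin m → ℕ) → (Fin m → ℕ)
  | none => 0
  | some e => s + e

/-- there is a run on the tree whose root gets the pair `(q, s)` -/
def PTAR.Acc {α : Type} {rk : α → ℕ} {m : ℕ} (A : PTAR α rk m) :
    Tree α rk → A.Q → (Fin m → ℕ) → Prop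
  | .node a ch, q, s => ∃ f : Fin (rk a) → A.Q × Option (Fin m → ℕ),
      (q, (⟨a, f⟩ : Σ a : α, (Fin (rk a) → A.Q × Option (Fin m → ℕ)))) ∈ A.Δ ∧
      (rk a = 0 → s ∈ A.C) ∧ ∀ i, A.Acc (ch i) (f i).1 (upd s (f i).2)

/-- the recognized tree language -/
def PTAR.lang {α : Type} {rk : α → ℕ} {m : ℕ} (A : PTAR α rk m) : Set (Tree α rk) :=
  {t | A.Acc t A.init 0}

/-- a PTA is a PTAR without resets -/
def PTAR.NoReset {α : Type} {rk : α → ℕ} {m : ℕ} (A : PTAR α rk m) : Prop :=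
  ∀ x ∈ A.Δ, ∀ i, (x.2.2 i).2 ≠ none

/-- the symbols `σ` (rank 2), `a` (rank 1), `α` (rank 0) -/
inductive Sym | sg | un | lf
  deriving DecidableEq

instance : Fintype Sym := ⟨{.sg, .un, .lf}, by intro x; cases x <;> simp⟩

def rks : Sym → ℕ
  | .sg => 2
  | .un => 1
  | .lf => 0

abbrev T : Type := Tree Sym rks

def sgT (l r : T) : T := .node .sg (fun i : Fin 2 => if i = 0 then l else r)
def unT (t : T) : T := .node .un (fun _ : Fin 1 => t)
def lfT : T := .node .lf (fun i : Fin 0 => i.elim0)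

/-- `uns n t = a ^ n (t)` -/
def uns : ℕ → T → T
  | 0, t => t
  | n + 1, t => unT (uns n t)

/-- the language: `α`, and `a ^ n (σ (a ^ n (α), r))` for `r` in the language -/
inductive L : T → Prop
  | base : L lfT
  | step (n : ℕ) (r : T) (h : L r) : L (uns n (sgT (uns n lfT) r))

theorem node_inj {a : Sym} {f g : Fin (rks a) → T} (h : Tree.node a f = Tree.node a g) : f = g := by
  cases h
  rfl

theorem unT_inj {t t' : T} (h : unT t = unT t') : t = t' :=
  congrFun (node_inj (a := .un) h) (0 : Fin 1)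

theorem sgT_inj {l r l' r' : T} (h : sgT l r = sgT l' r') : l = l' ∧ r = r' := by
  have e := node_inj (a := .sg) h
  exact ⟨congrFun e (0 : Fin 2), congrFun e (1 : Fin 2)⟩

theorem unT_ne_sgT {t l r : T} : unT t ≠ sgT l r := by
  intro h
  cases h

theorem unT_ne_lfT {t : T} : unT t ≠ lfT := by
  intro h
  cases h

theorem sgT_ne_lfT {l r : T} : sgT l r ≠ lfT := by
  intro h
  cases h

theorem uns_lf_inj {n n' : ℕ} (h : uns n lfT = uns n' lfT) : n = n' := by
  induction n generalizing n' with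
  | zero =>
    cases n' with
    | zero => rfl
    | succ n' => exact absurd h.symm unT_ne_lfT
  | succ n ih =>
    cases n' with
    | zero => exact absurd h unT_ne_lfT
    | succ n' => rw [ih (unT_inj h)]

theorem uns_sg_inj {n n' : ℕ} {l r l' r' : T} (h : uns n (sgT l r) = uns n' (sgT l' r')) :
    n = n' ∧ l = l' ∧ r = r' := by
  induction n generalizing n' with
  | zero =>
    cases n' with
    | zero => exact ⟨rfl, sgT_inj h⟩
    | succ n' => exact absurd h.symm unT_ne_sgT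
  | succ n ih =>
    cases n' with
    | zero => exact absurd h unT_ne_sgT
    | succ n' =>
      obtain ⟨h1, h2⟩ := ih (unT_inj h)
      exact ⟨by rw [h1], h2⟩

theorem uns_sg_ne_lf {n : ℕ} {l r : T} : uns n (sgT l r) ≠ lfT := by
  cases n with
  | zero => exact sgT_ne_lfT
  | succ n => exact unT_ne_lfT

/-- if a tree `a ^ n (σ (a ^ l (α), r))` is in the language then `n = l` and `r` is in it -/
theorem L_inv {n l : ℕ} {r : T} (h : L (uns n (sgT (uns l lfT) r))) : n = l ∧ L r := by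
  generalize ht : uns n (sgT (uns l lfT) r) = t at h
  cases h with
  | base => exact absurd ht uns_sg_ne_lf
  | step n' r' h' =>
    obtain ⟨h1, h2, h3⟩ := uns_sg_inj ht
    rw [h3]
    exact ⟨by rw [h1, uns_lf_inj h2], h'⟩

/-- every tree is of one of the two kinds -/
theorem tree_cases (t : T) : (∃ n, t = uns n lfT) ∨ ∃ n l r, t = uns n (sgT l r) := by
  induction t with
  | node a ch ih =>
    cases a with
    | lf =>
      left
      refine ⟨0, ?_⟩
      show Tree.node Sym.lf ch = Tree.node Sym.lf _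
      congr 1
      funext i
      exact i.elim0
    | un =>
      have hch : Tree.node Sym.un ch = unT (ch (0 : Fin 1)) := by
        show Tree.node Sym.un ch = Tree.node Sym.un _
        congr 1
        funext i
        congr 1
        exact Subsingleton.elim (α := Fin 1) _ _
      rcases ih (0 : Fin 1) with ⟨n, h⟩ | ⟨n, l, r, h⟩
      · left
        exact ⟨n + 1, by rw [hch, h]; rfl⟩
      · right
        exact ⟨n + 1, l, r, by rw [hch, h]; rfl⟩
    | sg =>
      right
      refine ⟨0, ch (0 : Fin 2), ch (1 : Fin 2), ?_⟩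
      show Tree.node Sym.sg ch = Tree.node Sym.sg _
      congr 1
      funext i
      have hi : i = (0 : Fin 2) ∨ i = (1 : Fin 2) := by
        have : ∀ i : Fin 2, i = 0 ∨ i = 1 := by decide
        exact this i
      rcases hi with rfl | rfl
      · rfl
      · rfl

theorem acc_node {α : Type} {rk : α → ℕ} {m : ℕ} (A : PTAR α rk m) (a : α)
    (ch : Fin (rk a) → Tree α rk) (q : A.Q) (s : Fin m → ℕ) :
    A.Acc (.node a ch) q s ↔ ∃ f : Fin (rk a) → A.Q × Option (Fin m → ℕ),
      (q, (⟨a, f⟩ : Σ a : α, (Fin (rk a) → A.Q × Option (Fin m → ℕ)))) ∈ A.Δ ∧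
      (rk a = 0 → s ∈ A.C) ∧ ∀ i, A.Acc (ch i) (f i).1 (upd s (f i).2) := by
  rw [PTAR.Acc]

section acc
variable {m : ℕ} (A : PTAR Sym rks m)

theorem acc_lf (q : A.Q) (s : Fin m → ℕ) : A.Acc lfT q s ↔
    (∃ f, (q, (⟨.lf, f⟩ : Σ a : Sym, (Fin (rks a) → A.Q × Option (Fin m → ℕ)))) ∈ A.Δ) ∧ s ∈ A.C := by
  unfold lfT PTAR.Acc
  constructor
  · rintro ⟨f, h1, h2, _⟩
    exact ⟨⟨f, h1⟩, h2 rfl⟩
  · rintro ⟨⟨f, h1⟩, h2⟩
    exact ⟨f, h1, fun _ => h2, fun i => Fin.elim0 i⟩

theorem acc_un (t : T) (q : A.Q) (s : Fin m → ℕ) : A.Acc (unT t) q s ↔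
    ∃ f : Fin 1 → A.Q × Option (Fin m → ℕ),
      (q, (⟨.un, f⟩ : Σ a : Sym, (Fin (rks a) → A.Q × Option (Fin m → ℕ)))) ∈ A.Δ ∧
      A.Acc t (f 0).1 (upd s (f 0).2) := by
  constructor
  · intro h
    obtain ⟨f, h1, _, h2⟩ := (acc_node A Sym.un _ q s).1 h
    exact ⟨f, h1, h2 (0 : Fin 1)⟩
  · rintro ⟨f, h1, h2⟩
    refine (acc_node A Sym.un _ q s).2 ⟨f, h1, fun h => absurd h (by decide), fun i => ?_⟩
    have : i = (0 : Fin 1) := Subsingleton.elim (α := Fin 1) _ _
    rw [this]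
    exact h2

theorem acc_sg (l r : T) (q : A.Q) (s : Fin m → ℕ) : A.Acc (sgT l r) q s ↔
    ∃ f : Fin 2 → A.Q × Option (Fin m → ℕ),
      (q, (⟨.sg, f⟩ : Σ a : Sym, (Fin (rks a) → A.Q × Option (Fin m → ℕ)))) ∈ A.Δ ∧
      A.Acc l (f 0).1 (upd s (f 0).2) ∧ A.Acc r (f 1).1 (upd s (f 1).2) := by
  constructor
  · intro h
    obtain ⟨f, h1, _, h2⟩ := (acc_node A Sym.sg _ q s).1 h
    exact ⟨f, h1, h2 (0 : Fin 2), h2 (1 : Fin 2)⟩
  · rintro ⟨f, h1, h2, h3⟩
    refine (acc_node A Sym.sg _ q s).2 ⟨f, h1, fun h => absurd h (by decide), fun i => ?_⟩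
    have hi : i = (0 : Fin 2) ∨ i = (1 : Fin 2) := by
      have : ∀ i : Fin 2, i = 0 ∨ i = 1 := by decide
      exact this i
    rcases hi with rfl | rfl
    · exact h2
    · exact h3

end acc

end Pool.Agent.V11233.PT
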