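import Mathlib
import Pool.Agent.V11233.PT.Def

set_option autoImplicit false

namespace Pool.Agent.V11233.PT

abbrev Tr : Type := Bool × (Σ a : Sym, (Fin (rks a) → Bool × Option (Fin 2 → ℕ)))

def f1 : Fin 1 → Bool × Option (Fin 2 → ℕ) := fun _ => (false, some ![1, 0])
def f2 : Fin 2 → Bool × Option (Fin 2 → ℕ) := fun i => if i = 0 then (true, some 0) else (false, none)
def f0 : Fin 0 → Bool × Option (Fin 2 → ℕ) := fun i => i.elim0
def f4 : Fin 1 → Bool × Option (Fin 2 → ℕ) := fun _ => (true, some ![0, 1])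

def t1 : Tr := (false, ⟨.un, f1⟩)
def t2 : Tr := (false, ⟨.sg, f2⟩)
def t3 : Tr := (false, ⟨.lf, f0⟩)
def t4 : Tr := (true, ⟨.un, f4⟩)
def t5 : Tr := (true, ⟨.lf, f0⟩)

theorem semi : IsSemilinearSet {x : Fin 2 → ℕ | x 0 = x 1} := by
  apply IsLinearSet.isSemilinearSet
  refine ⟨0, {![1, 1]}, Set.finite_singleton _, ?_⟩
  ext x
  constructor
  · intro hx
    refine ⟨x, ?_, show (0 : Fin 2 → ℕ) + x = x from zero_add (M := Fin 2 → ℕ) x⟩
    have : x = (x 0) • ![1, 1] := by
      funext i
      have hi : i = 0 ∨ i = 1 := by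
        have : ∀ i : Fin 2, i = 0 ∨ i = 1 := by decide
        exact this i
      rcases hi with rfl | rfl
      · simp
      · simp only [Pi.smul_apply, Matrix.cons_val_one, Matrix.cons_val_fin_one, smul_eq_mul, mul_one]
        exact hx.symm
    rw [this]
    have h1 : (![1, 1] : Fin 2 → ℕ) ∈ AddSubmonoid.closure ({![1, 1]} : Set (Fin 2 → ℕ)) :=
      AddSubmonoid.subset_closure (Set.mem_singleton _)
    exact AddSubmonoid.nsmul_mem _ h1 _
  · rintro ⟨y, hy, rfl⟩
    show ((0 : Fin 2 → ℕ) + y) 0 = ((0 : Fin 2 → ℕ) + y) 1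
    rw [zero_add]
    induction hy using AddSubmonoid.closure_induction with
    | mem z hz =>
      rw [Set.mem_singleton_iff] at hz
      rw [hz]
      rfl
    | zero => rfl
    | add y z _ _ h1 h2 => rw [Pi.add_apply, Pi.add_apply, h1, h2]

def Aut : PTAR Sym rks 2 where
  Q := Bool
  finQ := inferInstance
  init := false
  C := {x | x 0 = x 1}
  semilinear := semi
  Δ := {t1, t2, t3, t4, t5}
  finΔ := Set.toFinite _

theorem sig_inj {a : Sym} {f g : Fin (rks a) → Bool × Option (Fin 2 → ℕ)}
    (h : (⟨a, f⟩ : Σ a : Sym, (Fin (rks a) → Bool × Option (Fin 2 → ℕ))) = ⟨a, g⟩) : f = g := by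
  cases h
  rfl

theorem mem_un {q : Bool} {f : Fin 1 → Bool × Option (Fin 2 → ℕ)}
    (h : ((q, (⟨.un, f⟩ : Σ a : Sym, (Fin (rks a) → Bool × Option (Fin 2 → ℕ)))) : Tr) ∈ Aut.Δ) :
      (q = false ∧ f = f1) ∨ (q = true ∧ f = f4) := by
  change _ ∈ ({t1, t2, t3, t4, t5} : Set Tr) at h
  rcases h with h | h | h | h | h
  · exact Or.inl ⟨congrArg Prod.fst h, sig_inj (a := .un) (f := f) (g := f1) (congrArg Prod.snd h)⟩
  · exact absurd (congrArg (fun z : Tr => z.2.1) h) (fun h => nomatch h)
  · exact absurd (congrArg (fun z : Tr => z.2.1) h) (fun h => nomatch h)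
  · exact Or.inr ⟨congrArg Prod.fst h, sig_inj (a := .un) (f := f) (g := f4) (congrArg Prod.snd h)⟩
  · exact absurd (congrArg (fun z : Tr => z.2.1) h) (fun h => nomatch h)

theorem mem_sg {q : Bool} {f : Fin 2 → Bool × Option (Fin 2 → ℕ)}
    (h : ((q, (⟨.sg, f⟩ : Σ a : Sym, (Fin (rks a) → Bool × Option (Fin 2 → ℕ)))) : Tr) ∈ Aut.Δ) :
      q = false ∧ f = f2 := by
  change _ ∈ ({t1, t2, t3, t4, t5} : Set Tr) at h
  rcases h with h | h | h | h | h
  · exact absurd (congrArg (fun z : Tr => z.2.1) h) (fun h => nomatch h)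
  · exact ⟨congrArg Prod.fst h, sig_inj (a := .sg) (f := f) (g := f2) (congrArg Prod.snd h)⟩
  · exact absurd (congrArg (fun z : Tr => z.2.1) h) (fun h => nomatch h)
  · exact absurd (congrArg (fun z : Tr => z.2.1) h) (fun h => nomatch h)
  · exact absurd (congrArg (fun z : Tr => z.2.1) h) (fun h => nomatch h)

theorem in1 : t1 ∈ Aut.Δ := Or.inl rfl
theorem in2 : t2 ∈ Aut.Δ := Or.inr (Or.inl rfl)
theorem in3 : t3 ∈ Aut.Δ := Or.inr (Or.inr (Or.inl rfl))
theorem in4 : t4 ∈ Aut.Δ := Or.inr (Or.inr (Or.inr (Or.inl rfl)))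
theorem in5 : t5 ∈ Aut.Δ := Or.inr (Or.inr (Or.inr (Or.inr rfl)))

/-- acceptance by the automaton `Aut` -/
def B (t : T) (q : Bool) (s : Fin 2 → ℕ) : Prop := Aut.Acc t q s

theorem A_lf (q : Bool) (s : Fin 2 → ℕ) : B lfT q s ↔ s 0 = s 1 := by
  constructor
  · intro h
    exact ((acc_lf Aut q s).1 h).2
  · intro h
    refine (acc_lf Aut q s).2 ⟨⟨f0, ?_⟩, h⟩
    cases q
    · exact in3
    · exact in5

theorem A_un_false (t : T) (s : Fin 2 → ℕ) : B (unT t) false s ↔ B t false (s + ![1, 0]) := by
  constructor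
  · intro h
    obtain ⟨f, h1, h2⟩ := (acc_un Aut t false s).1 h
    rcases mem_un h1 with ⟨_, rfl⟩ | ⟨h, _⟩
    · exact h2
    · exact absurd h (by decide)
  · intro h
    exact (acc_un Aut t false s).2 ⟨f1, in1, h⟩

theorem A_un_true (t : T) (s : Fin 2 → ℕ) : B (unT t) true s ↔ B t true (s + ![0, 1]) := by
  constructor
  · intro h
    obtain ⟨f, h1, h2⟩ := (acc_un Aut t true s).1 h
    rcases mem_un h1 with ⟨h, _⟩ | ⟨_, rfl⟩
    · exact absurd h (by decide)
    · exact h2
  · intro h
    exact (acc_un Aut t true s).2 ⟨f4, in4, h⟩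

theorem A_sg_false (l r : T) (s : Fin 2 → ℕ) : B (sgT l r) false s ↔ B l true s ∧ B r false 0 := by
  constructor
  · intro h
    obtain ⟨f, h1, h2, h3⟩ := (acc_sg Aut l r false s).1 h
    obtain ⟨_, rfl⟩ := mem_sg h1
    refine ⟨?_, h3⟩
    have h4 : B l true (s + 0) := h2
    rwa [add_zero] at h4
  · rintro ⟨h1, h2⟩
    refine (acc_sg Aut l r false s).2 ⟨f2, in2, ?_, h2⟩
    show B l true (s + 0)
    rwa [add_zero]

theorem A_sg_true (l r : T) (s : Fin 2 → ℕ) : ¬ B (sgT l r) true s := by
  intro h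
  obtain ⟨f, h1, h2, h3⟩ := (acc_sg Aut l r true s).1 h
  obtain ⟨h, _⟩ := mem_sg h1
  exact absurd h (by decide)

theorem A_uns_false (n : ℕ) (t : T) (s : Fin 2 → ℕ) :
    B (uns n t) false s ↔ B t false (s + n • ![1, 0]) := by
  induction n generalizing s with
  | zero => simp [uns]
  | succ n ih =>
    show B (unT (uns n t)) false s ↔ _
    rw [A_un_false, ih, succ_nsmul', add_assoc]

theorem A_uns_true (n : ℕ) (t : T) (s : Fin 2 → ℕ) :
    B (uns n t) true s ↔ B t true (s + n • ![0, 1]) := by
  induction n generalizing s with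
  | zero => simp [uns]
  | succ n ih =>
    show B (unT (uns n t)) true s ↔ _
    rw [A_un_true, ih, succ_nsmul', add_assoc]

theorem L_sub (t : T) (h : L t) : B t false 0 := by
  induction h with
  | base => rw [A_lf]; rfl
  | step n r _ ih =>
    rw [A_uns_false, A_sg_false]
    refine ⟨?_, ih⟩
    rw [A_uns_true, A_lf]
    simp

/-- number of nodes labelled `σ` on the right spine -/
theorem sub_L (t : T) (h : B t false 0) : L t := by
  -- induction on the tree through its subtrees
  have key : ∀ (t : T) (n : ℕ), B (uns n t) false 0 → L (uns n t) := by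
    intro t
    induction t with
    | node a ch ih =>
      intro n h
      cases a with
      | lf =>
        have hch : Tree.node Sym.lf ch = lfT := by
          show Tree.node Sym.lf ch = Tree.node Sym.lf _
          congr 1
          funext i
          exact i.elim0
        rw [hch] at h ⊢
        rw [A_uns_false, A_lf] at h
        have : n = 0 := by simpa using h
        rw [this]
        exact L.base
      | un =>
        have hch : Tree.node Sym.un ch = unT (ch (0 : Fin 1)) := by
          show Tree.node Sym.un ch = Tree.node Sym.un _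
          congr 1
          funext i
          congr 1
          exact Subsingleton.elim (α := Fin 1) _ _
        have hshift : ∀ (n : ℕ) (t : T), uns n (unT t) = uns (n + 1) t := by
          intro n t
          induction n with
          | zero => rfl
          | succ n ih => show unT (uns n (unT t)) = unT (uns (n + 1) t); rw [ih]
        rw [hch, hshift] at h ⊢
        exact ih (0 : Fin 1) (n + 1) h
      | sg =>
        have hch : Tree.node Sym.sg ch = sgT (ch (0 : Fin 2)) (ch (1 : Fin 2)) := by
          show Tree.node Sym.sg ch = Tree.node Sym.sg _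
          congr 1
          funext i
          have hi : i = (0 : Fin 2) ∨ i = (1 : Fin 2) := by
            have : ∀ i : Fin 2, i = 0 ∨ i = 1 := by decide
            exact this i
          rcases hi with rfl | rfl
          · rfl
          · rfl
        rw [hch] at h ⊢
        rw [A_uns_false, A_sg_false] at h
        obtain ⟨h1, h2⟩ := h
        have hr : L (ch (1 : Fin 2)) := ih (1 : Fin 2) 0 h2
        rcases tree_cases (ch (0 : Fin 2)) with ⟨l, hl⟩ | ⟨l, l', r', hl⟩
        · rw [hl] at h1 ⊢
          rw [A_uns_true, A_lf] at h1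
          have : n = l := by simpa using h1
          rw [← this]
          exact L.step n _ hr
        · rw [hl, A_uns_true] at h1
          exact absurd h1 (A_sg_true _ _ _)
  exact key t 0 h

theorem lang_eq : Aut.lang = {t | L t} := by
  ext t
  exact ⟨fun h => sub_L t h, fun h => L_sub t h⟩

end Pool.Agent.V11233.PT
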