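import Mathlib
import Pool.Agent.V11233.PT.Def

set_option autoImplicit false

namespace Pool.Agent.V11233.PT

/-- the tree with the segments `n (k-1), …, n 0` and the branches `l (k-1), …, l 0` -/
def TT (n l : ℕ → ℕ) : ℕ → T
  | 0 => lfT
  | k + 1 => uns (n k) (sgT (uns (l k) lfT) (TT n l k))

theorem TT_congr (n l l' : ℕ → ℕ) (k : ℕ) (h : ∀ i < k, l i = l' i) : TT n l k = TT n l' k := by
  induction k with
  | zero => rfl
  | succ k ih => rw [TT, TT, h k (Nat.lt_succ_self k), ih (fun i hi => h i (by omega))]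

theorem L_TT (n : ℕ → ℕ) (k : ℕ) : L (TT n n k) := by
  induction k with
  | zero => exact L.base
  | succ k ih => exact L.step _ _ ih

theorem TT_inv (n l : ℕ → ℕ) (k : ℕ) (h : L (TT n l k)) : ∀ i < k, n i = l i := by
  induction k with
  | zero => intro i hi; omega
  | succ k ih =>
    obtain ⟨h1, h2⟩ := L_inv h
    intro i hi
    rcases Nat.lt_succ_iff_lt_or_eq.1 hi with hi | rfl
    · exact ih h2 i hi
    · exact h1

section lower
variable {m : ℕ} (A : PTAR Sym rks m) (F : Finset (Fin m → ℤ)) (p : ℕ) (K0 G : ℕ)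

/-- `G` bounds the effect of the transitions on the forms -/
def Bd : Prop := ∀ x ∈ A.Δ, ∀ i e, (x.2.2 i).2 = some e → ∀ a ∈ F, |form a e| ≤ (G : ℤ)

theorem exists_bd : ∃ G : ℕ, Bd A F G := by
  classical
  let g : (A.Q × (Σ a : Sym, (Fin (rks a) → A.Q × Option (Fin m → ℕ)))) → ℤ := fun x =>
    ∑ i, ∑ a ∈ F, |form a ((x.2.2 i).2.getD 0)|
  have hg : ∀ x, 0 ≤ g x := fun x => Finset.sum_nonneg fun _ _ => Finset.sum_nonneg fun _ _ => abs_nonneg _
  refine ⟨(∑ x ∈ A.finΔ.toFinset, g x).toNat, ?_⟩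
  intro x hx i e he a ha
  rw [Int.toNat_of_nonneg (Finset.sum_nonneg fun x _ => hg x)]
  have h1 : |form a e| ≤ ∑ a ∈ F, |form a ((x.2.2 i).2.getD 0)| := by
    rw [he]
    exact Finset.single_le_sum (f := fun a => |form a e|) (fun _ _ => abs_nonneg _) ha
  have h2 : ∑ a ∈ F, |form a ((x.2.2 i).2.getD 0)| ≤ g x :=
    Finset.single_le_sum (f := fun i => ∑ a ∈ F, |form a ((x.2.2 i).2.getD 0)|)
      (fun _ _ => Finset.sum_nonneg fun _ _ => abs_nonneg _) (Finset.mem_univ i)
  have h3 : g x ≤ ∑ x ∈ A.finΔ.toFinset, g x :=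
    Finset.single_le_sum (f := g) (fun x _ => hg x) (by simpa using hx)
  exact h1.trans (h2.trans h3)

variable (hno : A.NoReset) (hG : Bd A F G)

include hno hG in
theorem un_step {t : T} {q : A.Q} {s : Fin m → ℕ} (h : A.Acc (unT t) q s) :
    ∃ q' e, A.Acc t q' (s + e) ∧ (∀ a ∈ F, |form a e| ≤ (G : ℤ)) ∧
      ∀ t' s', A.Acc t' q' (s' + e) → A.Acc (unT t') q s' := by
  obtain ⟨f, h1, h2⟩ := (acc_un A t q s).1 h
  cases he : (f 0).2 with
  | none => exact absurd he (hno _ h1 (0 : Fin 1))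
  | some e =>
    refine ⟨(f 0).1, e, ?_, hG _ h1 (0 : Fin 1) e he, ?_⟩
    · rw [he] at h2
      exact h2
    · intro t' s' h'
      refine (acc_un A t' q s').2 ⟨f, h1, ?_⟩
      rw [he]
      exact h'

include hno hG in
theorem sg_step {l r : T} {q : A.Q} {s : Fin m → ℕ} (h : A.Acc (sgT l r) q s) :
    ∃ q1 e1 q2 e2, A.Acc l q1 (s + e1) ∧ A.Acc r q2 (s + e2) ∧ (∀ a ∈ F, |form a e1| ≤ (G : ℤ)) ∧
      (∀ a ∈ F, |form a e2| ≤ (G : ℤ)) ∧
      ∀ l' r', A.Acc l' q1 (s + e1) → A.Acc r' q2 (s + e2) → A.Acc (sgT l' r') q s := by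
  obtain ⟨f, h1, h2, h3⟩ := (acc_sg A l r q s).1 h
  cases he1 : (f 0).2 with
  | none => exact absurd he1 (hno _ h1 (0 : Fin 2))
  | some e1 =>
    cases he2 : (f 1).2 with
    | none => exact absurd he2 (hno _ h1 (1 : Fin 2))
    | some e2 =>
      rw [he1] at h2
      rw [he2] at h3
      refine ⟨(f 0).1, e1, (f 1).1, e2, h2, h3, hG _ h1 (0 : Fin 2) e1 he1,
        hG _ h1 (1 : Fin 2) e2 he2, ?_⟩
      intro l' r' h4 h5
      refine (acc_sg A l' r' q s).2 ⟨f, h1, ?_, ?_⟩
      · rw [he1]; exact h4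
      · rw [he2]; exact h5

include hno hG in
theorem path (n : ℕ) (t : T) : ∀ (q : A.Q) (s : Fin m → ℕ), A.Acc (uns n t) q s →
    ∃ q' s', A.Acc t q' s' ∧ (∀ a ∈ F, |form a s' - form a s| ≤ (G : ℤ) * n) ∧
      ∀ t', A.Acc t' q' s' → A.Acc (uns n t') q s := by
  induction n with
  | zero =>
    intro q s h
    exact ⟨q, s, h, by simp, fun t' h' => h'⟩
  | succ n ih =>
    intro q s h
    obtain ⟨q', e, h1, h2, h3⟩ := un_step A F G hno hG h
    obtain ⟨q'', s'', h4, h5, h6⟩ := ih q' (s + e) h1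
    refine ⟨q'', s'', h4, ?_, fun t' h' => h3 _ _ (h6 t' h')⟩
    intro a ha
    have e1 := abs_le.1 (h5 a ha)
    have e2 := abs_le.1 (h2 a ha)
    rw [form_add] at e1
    rw [abs_le]
    push_cast
    constructor <;> nlinarith

variable (hC : ∀ x y, Eqv F p (K0 : ℤ) x y → x ∈ A.C → y ∈ A.C)

include hno hG hC in
theorem shift (n : ℕ) : ∀ (q : A.Q) (s s' : Fin m → ℕ), Eqv F p ((K0 : ℤ) + G * n) s s' →
    A.Acc (uns n lfT) q s → A.Acc (uns n lfT) q s' := by
  induction n with
  | zero =>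
    intro q s s' hs h
    obtain ⟨h1, h2⟩ := (acc_lf A q s).1 h
    refine (acc_lf A q s').2 ⟨h1, hC s s' ?_ h2⟩
    simpa using hs
  | succ n ih =>
    intro q s s' hs h
    obtain ⟨q', e, h1, h2, h3⟩ := un_step A F G hno hG h
    refine h3 _ _ (ih q' (s + e) (s' + e) ?_ h1)
    refine ⟨fun j => ?_, fun a ha => ?_⟩
    · have := hs.1 j
      have e3 : (((s + e) j : ℕ) : ℤ) - (((s' + e) j : ℕ) : ℤ) = (s j : ℤ) - (s' j : ℤ) := by
        simp only [Pi.add_apply, Nat.cast_add]
        ring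
      rw [e3]
      exact this
    · have e2 := abs_le.1 (h2 a ha)
      rw [form_add, form_add]
      have e4 : ((K0 : ℤ) + G * ((n + 1 : ℕ) : ℤ)) = (K0 : ℤ) + G * n + G := by push_cast; ring
      have h5 := hs.2 a ha
      rw [e4] at h5
      rcases h5 with h | ⟨h, h'⟩ | ⟨h, h'⟩
      · left; rw [h]
      · right; left; constructor <;> linarith
      · right; right; constructor <;> linarith

include hno hG in
theorem extract (n l : ℕ → ℕ) : ∀ (k : ℕ) (q : A.Q) (s : Fin m → ℕ), A.Acc (TT n l k) q s →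
    ∃ (P : ℕ → A.Q) (w : ℕ → Fin m → ℕ),
      (∀ i < k, A.Acc (uns (l i) lfT) (P i) (w i)) ∧
      (∀ i < k, ∀ a ∈ F, |form a (w i) - form a s| ≤ (G : ℤ) * ∑ x ∈ Finset.Ico i k, ((n x : ℤ) + 1)) ∧
      (∀ i j, i < j → j < k → ∀ a ∈ F, |form a (w i) - form a (w j)| ≤
        (G : ℤ) * (∑ x ∈ Finset.Ico i j, ((n x : ℤ) + 1) + 2)) ∧
      (∀ i < k, ∀ b : ℕ, A.Acc (uns b lfT) (P i) (w i) →
        A.Acc (TT n (Function.update l i b) k) q s) := by
  intro k
  induction k with
  | zero =>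
    intro q s _
    exact ⟨fun _ => q, fun _ => s, by intro i hi; omega, by intro i hi; omega,
      by intro i j _ hj; omega, by intro i hi; omega⟩
  | succ k ih =>
    intro q s h
    rw [TT] at h
    obtain ⟨q1, s1, h1, h2, h3⟩ := path A F G hno hG _ _ _ _ h
    obtain ⟨ql, el, qr, er, h4, h5, h6, h7, h8⟩ := sg_step A F G hno hG h1
    obtain ⟨P, w, g1, g2, g3, g4⟩ := ih qr (s1 + er) h5
    have hG0 : (0 : ℤ) ≤ G := by positivity
    refine ⟨fun i => if i = k then ql else P i, fun i => if i = k then s1 + el else w i, ?_, ?_, ?_, ?_⟩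
    · intro i hi
      by_cases hik : i = k
      · subst hik
        simpa using h4
      · simp only [hik, if_false]
        exact g1 i (by omega)
    · intro i hi a ha
      have e2 := abs_le.1 (h2 a ha)
      have e6 := abs_le.1 (h6 a ha)
      have e7 := abs_le.1 (h7 a ha)
      by_cases hik : i = k
      · subst hik
        simp only [if_true]
        rw [form_add, Nat.Ico_succ_singleton, Finset.sum_singleton, abs_le]
        constructor <;> nlinarith
      · simp only [hik, if_false]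
        have e8 := abs_le.1 (g2 i (by omega) a ha)
        rw [form_add] at e8
        rw [Finset.sum_Ico_succ_top (by omega : i ≤ k), abs_le]
        constructor <;> nlinarith
    · intro i j hij hj a ha
      have hik : i ≠ k := by omega
      by_cases hjk : j = k
      · subst hjk
        simp only [hik, if_false, if_true]
        have e8 := abs_le.1 (g2 i (by omega) a ha)
        have e6 := abs_le.1 (h6 a ha)
        have e7 := abs_le.1 (h7 a ha)
        rw [form_add] at e8
        rw [form_add, abs_le]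
        constructor <;> nlinarith
      · simp only [hik, hjk, if_false]
        exact g3 i j hij (by omega) a ha
    · intro i hi b hb
      rw [TT]
      by_cases hik : i = k
      · subst hik
        simp only [if_true] at hb
        rw [Function.update_self]
        apply h3
        apply h8 _ _ hb
        rw [TT_congr n (Function.update l i b) l i (fun x hx => Function.update_of_ne (by omega) _ _)]
        exact h5
      · simp only [hik, if_false] at hb
        rw [Function.update_of_ne (by omega : k ≠ i)]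
        apply h3
        exact h8 _ _ h4 (g4 i (by omega) b hb)

end lower

/-- clipping -/
theorem clip_lemma (L K z z' : ℤ) (hL : 0 ≤ L) (h : ¬ (L < |z| ∧ |z| ≤ K)) (h' : ¬ (L < |z'| ∧ |z'| ≤ K))
    (hc : max (-(L + 1)) (min (L + 1) z) = max (-(L + 1)) (min (L + 1) z')) :
    z = z' ∨ (K < z ∧ K < z') ∨ (z < -K ∧ z' < -K) := by
  rcases abs_cases z with ⟨h1, h2⟩ | ⟨h1, h2⟩ <;> rcases abs_cases z' with ⟨h3, h4⟩ | ⟨h3, h4⟩ <;>
    rw [h1] at h <;> rw [h3] at h' <;> omega

end Pool.Agent.V11233.PT
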