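import Mathlib
import Pool.Agent.V11233.PT.Low

set_option autoImplicit false

namespace Pool.Agent.V11233.PT

/-- the scales: `S (j+1) = S j + 2 * g (S j) + 1` -/
def scS (g : ℕ → ℕ) : ℕ → ℕ
  | 0 => 0
  | j + 1 => scS g j + (2 * g (scS g j) + 1)

theorem scS_sum (g : ℕ → ℕ) (i : ℕ) : ∀ j, i ≤ j →
    ∑ x ∈ Finset.Ico i j, (2 * g (scS g x) + 1) + scS g i = scS g j := by
  intro j hj
  induction j, hj using Nat.le_induction with
  | base => simp
  | succ j hj ih =>
    rw [Finset.sum_Ico_succ_top hj, scS, ← ih]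
    ring

theorem not_pta {m : ℕ} (A : PTAR Sym rks m) (hno : A.NoReset) : A.lang ≠ {t | L t} := by
  classical
  intro hL
  obtain ⟨F, p, K, hp, hK, hC⟩ := loc_semilinear A.semilinear
  obtain ⟨K0, rfl⟩ := Int.eq_ofNat_of_zero_le hK
  obtain ⟨G, hG⟩ := exists_bd A F
  have := A.finQ
  have : Fintype A.Q := Fintype.ofFinite A.Q
  have : NeZero p := ⟨by omega⟩
  obtain ⟨r, hr⟩ : ∃ r, r = F.card := ⟨_, rfl⟩
  obtain ⟨cq, hcq⟩ : ∃ c, c = Fintype.card A.Q * p ^ m := ⟨_, rfl⟩
  have hQ : Nonempty A.Q := ⟨A.init⟩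
  have hcqpos : 0 < cq := by
    rw [hcq]
    have := Fintype.card_pos (α := A.Q)
    positivity
  -- parameters
  let Lb : ℕ → ℕ := fun s => K0 + 2 * G * (s + 2)
  let M : ℕ → ℕ := fun s => cq * (2 * Lb s + 3) ^ r
  let g : ℕ → ℕ := fun s => (r + 2) * M s + 1
  let N : ℕ → ℕ := fun j => g (scS g j)
  have hMpos : ∀ s, 0 < M s := fun s => by positivity
  have hNpos : ∀ j, 0 < N j := fun j => Nat.succ_pos _
  -- runs
  let ext : (Fin (r + 1) → ℕ) → ℕ → ℕ := fun n x => if h : x < r + 1 then n ⟨x, h⟩ else 0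
  have hrun : ∀ n : Fin (r + 1) → ℕ, A.Acc (TT (ext n) (ext n) (r + 1)) A.init 0 := by
    intro n
    have : TT (ext n) (ext n) (r + 1) ∈ A.lang := by rw [hL]; exact L_TT _ _
    exact this
  choose P w h1 h2 h3 h4 using fun n => extract A F G hno hG (ext n) (ext n) (r + 1) A.init 0 (hrun n)
  let S : Finset (Fin (r + 1) → ℕ) := Fintype.piFinset (fun i => Finset.Ico (N i.val) (2 * N i.val))
  have hSmem : ∀ n, n ∈ S ↔ ∀ i : Fin (r + 1), N i.val ≤ n i ∧ n i < 2 * N i.val := by
    intro n
    simp [S, Fintype.mem_piFinset]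
  -- mid forms
  let mid : (Fin (r + 1) → ℕ) → Fin (r + 1) → (Fin m → ℤ) → Prop := fun n j a =>
    ((Lb (scS g j.val) : ℕ) : ℤ) < |form a (w n j.val)| ∧
      |form a (w n j.val)| ≤ (K0 : ℤ) + G * (2 * N j.val : ℕ)
  let Bad : Fin (r + 1) → Finset (Fin (r + 1) → ℕ) := fun j =>
    S.filter (fun n => ∀ a ∈ F, ¬ mid n j a)
  -- codes
  let code : Fin (r + 1) → (Fin (r + 1) → ℕ) → A.Q × (Fin m → ZMod p) × (F → ℤ) := fun j n =>
    (P n j.val, fun x => ((w n j.val x : ℕ) : ZMod p), fun a =>
      max (-(((Lb (scS g j.val) : ℕ) : ℤ) + 1)) (min (((Lb (scS g j.val) : ℕ) : ℤ) + 1) (form a.1 (w n j.val))))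
  have hfool : ∀ j : Fin (r + 1), ∀ n ∈ Bad j, ∀ n' ∈ Bad j, code j n = code j n' → n j = n' j := by
    intro j n hn n' hn' hcode
    obtain ⟨hnS, hnb⟩ := Finset.mem_filter.1 hn
    obtain ⟨hnS', hnb'⟩ := Finset.mem_filter.1 hn'
    simp only [code, Prod.mk.injEq] at hcode
    obtain ⟨c1, c2, c3⟩ := hcode
    have hacc := h1 n j.val j.isLt
    have hej : ∀ n : Fin (r + 1) → ℕ, ext n j.val = n j := by
      intro n
      exact dif_pos j.isLt
    rw [hej] at hacc
    have heqv : Eqv F p ((K0 : ℤ) + G * (n j : ℕ)) (w n j.val) (w n' j.val) := by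
      refine ⟨fun x => ?_, fun a ha => ?_⟩
      · have := congrFun c2 x
        have h5 := (ZMod.intCast_eq_intCast_iff_dvd_sub (w n' j.val x : ℤ) (w n j.val x : ℤ) p).1
          (by push_cast; exact this.symm)
        exact Int.emod_eq_zero_of_dvd h5
      · have h5 := congrFun c3 ⟨a, ha⟩
        have h6 := clip_lemma ((Lb (scS g j.val) : ℕ) : ℤ) ((K0 : ℤ) + G * (2 * N j.val : ℕ))
          (form a (w n j.val)) (form a (w n' j.val)) (by positivity) (hnb a ha) (hnb' a ha) h5
        have h7 : (K0 : ℤ) + G * (n j : ℕ) ≤ (K0 : ℤ) + G * (2 * N j.val : ℕ) := by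
          have h8 := ((hSmem n).1 hnS j).2
          have h9 : ((n j : ℕ) : ℤ) ≤ ((2 * N j.val : ℕ) : ℤ) := by exact_mod_cast h8.le
          have h10 : (0 : ℤ) ≤ G := by positivity
          nlinarith
        rcases h6 with h | ⟨h, h'⟩ | ⟨h, h'⟩
        · exact Or.inl h
        · exact Or.inr (Or.inl ⟨by omega, by omega⟩)
        · exact Or.inr (Or.inr ⟨by omega, by omega⟩)
    have hacc' := shift A F p K0 G hno hG hC (n j) _ _ _ heqv hacc
    rw [c1] at hacc'
    have hsw := h4 n' j.val j.isLt (n j) hacc'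
    have hmem : TT (ext n') (Function.update (ext n') j.val (n j)) (r + 1) ∈ A.lang := hsw
    rw [hL] at hmem
    have h5 := TT_inv _ _ _ hmem j.val j.isLt
    rw [hej, Function.update_self] at h5
    exact h5.symm
  -- counting
  have hcard : ∀ j : Fin (r + 1), (Bad j).card * (r + 2) ≤ S.card := by
    intro j
    let Tg : Finset ((A.Q × (Fin m → ZMod p) × (F → ℤ)) × (Fin (r + 1) → ℕ)) :=
      ((Finset.univ : Finset A.Q) ×ˢ (Finset.univ : Finset (Fin m → ZMod p)) ×ˢ
        Fintype.piFinset (fun _ : F => Finset.Icc (-(((Lb (scS g j.val) : ℕ) : ℤ) + 1))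
          (((Lb (scS g j.val) : ℕ) : ℤ) + 1))) ×ˢ
      Fintype.piFinset (fun i : Fin (r + 1) => if i = j then {N j.val} else Finset.Ico (N i.val) (2 * N i.val))
    have hle : (Bad j).card ≤ Tg.card := by
      refine Finset.card_le_card_of_injOn (fun n => (code j n, Function.update n j (N j.val))) ?_ ?_
      · intro n hn
        have hnS := (Finset.mem_filter.1 hn).1
        simp only [Tg, Finset.coe_product, Set.mem_prod, Finset.mem_coe, Finset.mem_univ, true_and,
          Fintype.mem_piFinset, code, Finset.mem_Icc]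
        refine ⟨fun a => ⟨le_max_left _ _, ?_⟩, fun i => ?_⟩
        · apply max_le
          · have : (0 : ℤ) ≤ ((Lb (scS g j.val) : ℕ) : ℤ) := by positivity
            omega
          · exact min_le_left _ _
        · by_cases hi : i = j
          · subst hi
            simp
          · simp only [hi, if_false, Finset.mem_Ico]
            rw [Function.update_of_ne hi]
            exact (hSmem n).1 hnS i
      · intro n hn n' hn' heq
        simp only [Prod.mk.injEq] at heq
        obtain ⟨e1, e2⟩ := heq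
        funext i
        by_cases hi : i = j
        · subst hi
          exact hfool i n hn n' hn' e1
        · have := congrFun e2 i
          rwa [Function.update_of_ne hi, Function.update_of_ne hi] at this
    obtain ⟨R, hR⟩ : ∃ R, R = ∏ i ∈ Finset.univ.erase j, N (Fin.val i) := ⟨_, rfl⟩
    have hTg : Tg.card = M (scS g j.val) * R := by
      simp only [Tg, Finset.card_product, Finset.card_univ, Fintype.card_pi, Finset.prod_const,
        ZMod.card, Fintype.card_fin, Fintype.card_piFinset, Int.card_Icc, Fintype.card_coe]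
      have e1 : ∏ i : Fin (r + 1), (if i = j then ({N j.val} : Finset ℕ) else
          Finset.Ico (N i.val) (2 * N i.val)).card = R := by
        rw [← Finset.mul_prod_erase Finset.univ _ (Finset.mem_univ j)]
        simp only [if_true, Finset.card_singleton, one_mul]
        rw [hR]
        apply Finset.prod_congr rfl
        intro i hi
        rw [if_neg (Finset.ne_of_mem_erase hi), Nat.card_Ico]
        omega
      rw [e1]
      have e2 : (((Lb (scS g j.val) : ℕ) : ℤ) + 1 + 1 - -(((Lb (scS g j.val) : ℕ) : ℤ) + 1)).toNat =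
          2 * Lb (scS g j.val) + 3 := by omega
      rw [e2, ← hr]
      simp only [M, hcq]
      ring
    have hS : S.card = N j.val * R := by
      simp only [S, Fintype.card_piFinset, Nat.card_Ico]
      rw [← Finset.mul_prod_erase Finset.univ _ (Finset.mem_univ j), hR]
      congr 1
      · omega
      · apply Finset.prod_congr rfl
        intro i _
        omega
    rw [hS]
    calc (Bad j).card * (r + 2) ≤ (M (scS g j.val) * R) * (r + 2) :=
          Nat.mul_le_mul (hle.trans hTg.le) le_rfl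
      _ = ((r + 2) * M (scS g j.val)) * R := by ring
      _ ≤ N j.val * R := Nat.mul_le_mul (Nat.le_succ _) le_rfl
  have hSpos : 0 < S.card := by
    simp only [S, Fintype.card_piFinset, Nat.card_Ico]
    apply Finset.prod_pos
    intro i _
    have := hNpos i.val
    omega
  -- a good tuple
  obtain ⟨n, hnS, hgood⟩ : ∃ n ∈ S, ∀ j, ∃ a ∈ F, mid n j a := by
    by_contra hcon
    push Not at hcon
    have hcov : S ⊆ Finset.univ.biUnion Bad := by
      intro n hn
      obtain ⟨j, hj⟩ := hcon n hn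
      exact Finset.mem_biUnion.2 ⟨j, Finset.mem_univ _, Finset.mem_filter.2 ⟨hn, hj⟩⟩
    have h5 : S.card ≤ ∑ j, (Bad j).card := (Finset.card_le_card hcov).trans Finset.card_biUnion_le
    have h6 : (∑ j, (Bad j).card) * (r + 2) ≤ (r + 1) * S.card := by
      rw [Finset.sum_mul]
      calc ∑ j, (Bad j).card * (r + 2) ≤ ∑ j : Fin (r + 1), S.card := Finset.sum_le_sum (fun j _ => hcard j)
        _ = (r + 1) * S.card := by simp
    nlinarith
  choose a haF ha using hgood
  have hlt : Fintype.card F < Fintype.card (Fin (r + 1)) := by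
    rw [Fintype.card_fin, Fintype.card_coe, ← hr]
    exact Nat.lt_succ_self r
  obtain ⟨i, j, hij, he⟩ := Fintype.exists_ne_map_eq_of_card_lt (fun j => (⟨a j, haF j⟩ : F)) hlt
  have he' : a i = a j := congrArg Subtype.val he
  -- contradiction for i < j
  have hmain : ∀ i j : Fin (r + 1), i < j → a i = a j → False := by
    intro i j hij he
    have m1 := (ha j).1
    have m2 := (ha i).2
    rw [he] at m2
    have m3 := h3 n i.val j.val hij j.isLt (a j) (haF j)
    have hsum : ∑ x ∈ Finset.Ico i.val j.val, ((ext n x : ℤ) + 1) + ((scS g i.val : ℕ) : ℤ) ≤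
        ((scS g j.val : ℕ) : ℤ) := by
      have e := scS_sum g i.val j.val (le_of_lt hij)
      rw [← e]
      push_cast
      apply add_le_add _ le_rfl
      apply Finset.sum_le_sum
      intro x hx
      have hx2 : x < r + 1 := lt_of_lt_of_le (Finset.mem_Ico.1 hx).2 (by omega)
      have h8 := ((hSmem n).1 hnS ⟨x, hx2⟩).2
      have h9 : ext n x = n ⟨x, hx2⟩ := dif_pos hx2
      rw [h9]
      have h10 : ((n ⟨x, hx2⟩ : ℕ) : ℤ) < ((2 * N x : ℕ) : ℤ) := by exact_mod_cast h8
      push_cast at h10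
      have h11 : N x = g (scS g x) := rfl
      rw [h11] at h10
      linarith
    have hN2 : ((2 * N i.val : ℕ) : ℤ) + 1 ≤ ((scS g j.val : ℕ) : ℤ) := by
      have e := scS_sum g i.val j.val (le_of_lt hij)
      have h5 : 2 * g (scS g i.val) + 1 ≤ ∑ x ∈ Finset.Ico i.val j.val, (2 * g (scS g x) + 1) :=
        Finset.single_le_sum (f := fun x => 2 * g (scS g x) + 1) (fun _ _ => Nat.zero_le _)
          (Finset.mem_Ico.2 ⟨le_rfl, hij⟩)
      have h6 : 2 * N i.val + 1 ≤ scS g j.val := by
        have : N i.val = g (scS g i.val) := rfl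
        omega
      exact_mod_cast h6
    obtain ⟨Sg, hSg⟩ : ∃ Sg, Sg = ∑ x ∈ Finset.Ico i.val j.val, ((ext n x : ℤ) + 1) := ⟨_, rfl⟩
    rw [← hSg] at hsum m3
    have hsi : (0 : ℤ) ≤ ((scS g i.val : ℕ) : ℤ) := by positivity
    have hG0 : (0 : ℤ) ≤ G := by positivity
    have m4 : |form (a j) (w n j.val)| ≤ |form (a j) (w n i.val)| +
        |form (a j) (w n i.val) - form (a j) (w n j.val)| := by
      have := abs_sub_abs_le_abs_sub (form (a j) (w n j.val)) (form (a j) (w n i.val))
      rw [abs_sub_comm] at this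
      linarith
    have m5 : ((Lb (scS g j.val) : ℕ) : ℤ) = (K0 : ℤ) + 2 * G * (((scS g j.val : ℕ) : ℤ) + 2) := by
      simp only [Lb]
      push_cast
      ring
    rw [m5] at m1
    have m6 : (G : ℤ) * (2 * N i.val : ℕ) ≤ G * ((scS g j.val : ℕ) : ℤ) := by
      apply mul_le_mul_of_nonneg_left _ hG0
      linarith
    have m7 : (G : ℤ) * (Sg + 2) ≤ G * (((scS g j.val : ℕ) : ℤ) + 2) := by
      apply mul_le_mul_of_nonneg_left _ hG0
      linarith
    nlinarith
  rcases lt_trichotomy i j with h | h | h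
  · exact hmain i j h he'
  · exact hij h
  · exact hmain j i h he'.symm

end Pool.Agent.V11233.PT
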